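import Pool.Agent.AT8.Stmts1

/-!
# Squad AT8, row FCH: `z ↦ χ(z i)` is a character of `V`
-/

set_option autoImplicit false

open scoped BigOperators

noncomputable section

namespace Pool.Agent.PP.T8.H53

open Pool.Agent.Helper51_AWC Pool.Agent.Helper79_WRA Pool.Agent.PP Pool.Agent.PP.KF
open Pool.Agent.PP.K9 Pool.Agent.PP.K9.H97 Pool.Agent.PP.H75 Pool.Agent.PP.T3 Pool.Agent.PP.T2
open Pool.Agent.PP.T8

attribute [local instance] Ideal.Quotient.field

/-- the trace of an idempotent is a natural number -/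
theorem trace_idem {n : ℕ} (f : Module.End ℂ (Fin n → ℂ)) (hf : f * f = f) :
    ∃ m : ℕ, LinearMap.trace ℂ (Fin n → ℂ) f = m :=
  ⟨_, LinearMap.IsProj.trace (LinearMap.IsIdempotentElem.isProj_range f hf)⟩

/-- FCH -/
theorem fch : FchStmt := by
  intro M _ G _ _ V _ i hi χ hχ lam
  obtain ⟨n, ρ, _, hρ⟩ := hχ
  have hFG : Fintype G := Fintype.ofFinite G
  have hFV : Fintype V := Fintype.ofFinite V
  have hV0 : (Nat.card V : ℂ) ≠ 0 := Nat.cast_ne_zero.2 Nat.card_pos.ne'
  have hlam : ∀ v : V, lam v⁻¹ * lam v = 1 := by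
    intro v
    rw [← map_mul, inv_mul_cancel, map_one]
  let p : Module.End ℂ (Fin n → ℂ) := ∑ g, i g • ρ g
  let q0 : Module.End ℂ (Fin n → ℂ) := ∑ v : V, lam v⁻¹ • ρ v
  have hp : p * p = p := by
    have h1 : p * p = ∑ g, ∑ h, (i g * i h) • ρ (g * h) := by
      simp only [p, Finset.sum_mul, Finset.mul_sum]
      rw [Finset.sum_comm]
      refine Finset.sum_congr rfl fun h _ => Finset.sum_congr rfl fun g _ => ?_
      rw [map_mul, smul_mul_smul_comm]
    have h2 : ∀ x, i x = ∑ t, i t * i (t⁻¹ * x) := by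
      intro x
      conv_lhs => rw [← hi.id]
      rw [mulF, finsum_eq_sum_of_fintype]
    rw [h1]
    have h3 : p = ∑ x, ∑ t, (i t * i (t⁻¹ * x)) • ρ x := by
      simp only [p]
      refine Finset.sum_congr rfl fun x _ => ?_
      rw [← Finset.sum_smul, ← h2]
    refine Eq.trans ?_ (h3.trans Finset.sum_comm).symm
    refine Finset.sum_congr rfl fun t _ => ?_
    rw [← Equiv.sum_comp (Equiv.mulLeft t) (fun x => (i t * i (t⁻¹ * x)) • ρ x)]
    refine Finset.sum_congr rfl fun x _ => ?_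
    rw [Equiv.coe_mulLeft, inv_mul_cancel_left]
  have hq : q0 * q0 = (Nat.card V : ℂ) • q0 := by
    have h1 : q0 * q0 = ∑ v : V, ∑ w : V, lam (v * w)⁻¹ • ρ ((v * w : V) : G) := by
      simp only [q0, Finset.sum_mul, Finset.mul_sum]
      rw [Finset.sum_comm]
      refine Finset.sum_congr rfl fun v _ => Finset.sum_congr rfl fun w _ => ?_
      rw [smul_mul_smul_comm, mul_inv_rev, map_mul, Subgroup.coe_mul, map_mul,
        mul_comm (lam w⁻¹)]
    rw [h1]
    have h2 : ∀ v : V, ∑ w : V, lam (v * w)⁻¹ • ρ ((v * w : V) : G) = q0 := by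
      intro v
      exact Equiv.sum_comp (Equiv.mulLeft v) (fun x : V => lam x⁻¹ • ρ (x : G))
    rw [Finset.sum_congr rfl fun v _ => h2 v, Finset.sum_const, Finset.card_univ,
      ← Nat.card_eq_fintype_card, ← Nat.cast_smul_eq_nsmul ℂ]
  have hpv : ∀ v : V, ρ v * p = p * ρ v := by
    intro v
    simp only [p, Finset.sum_mul, Finset.mul_sum]
    rw [← Equiv.sum_comp (MulAut.conj (v : G)).toEquiv (fun x => i x • ρ x * ρ (v : G))]
    refine Finset.sum_congr rfl fun x _ => ?_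
    have h1 : (MulAut.conj (v : G)).toEquiv x = v * x * (v : G)⁻¹ := rfl
    rw [h1, hi.iv v v.2, mul_smul_comm, smul_mul_assoc, ← map_mul, ← map_mul,
      inv_mul_cancel_right]
  have hpq : p * q0 = q0 * p := by
    refine (Finset.mul_sum _ _ p).trans (Eq.trans ?_ (Finset.sum_mul _ _ p).symm)
    refine Finset.sum_congr rfl fun v _ => ?_
    rw [mul_smul_comm, smul_mul_assoc, hpv]
  obtain ⟨m, hm⟩ := trace_idem ((Nat.card V : ℂ)⁻¹ • (q0 * p)) (by
    have h1 : (q0 * p) * (q0 * p) = (Nat.card V : ℂ) • (q0 * p) := by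
      rw [mul_assoc, ← mul_assoc p, hpq, mul_assoc q0 p p, hp, ← mul_assoc, hq, smul_mul_assoc]
    rw [smul_mul_smul_comm, h1, smul_smul, mul_assoc, inv_mul_cancel₀ hV0, mul_one])
  refine ⟨m, ?_⟩
  rw [← hm, map_smul, smul_eq_mul]
  congr 1
  rw [finsum_eq_sum_of_fintype]
  simp only [q0, Finset.sum_mul, map_sum]
  refine Finset.sum_congr rfl fun v _ => ?_
  rw [smul_mul_assoc, map_smul, smul_eq_mul, mul_comm]
  congr 1
  simp only [p, Finset.mul_sum, map_sum]
  rw [fv, finsum_eq_sum_of_fintype]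
  refine Finset.sum_congr rfl fun g _ => ?_
  rw [mul_smul_comm, map_smul, smul_eq_mul, ← map_mul]
  congr 1
  rw [← hρ]
  rfl

end Pool.Agent.PP.T8.H53
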