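import Pool.Agent.AT8.Stmts1
import Pool.Agent.Helper15_WRA.Vpow
import Pool.Agent.Helper74_PP.Alg
import Pool.Agent.Helper50_PP.Ffa

/-!
# Squad AT8, row RK1: an idempotent at which the character `κ` does not vanish modulo `M`
-/

set_option autoImplicit false

open scoped BigOperators

noncomputable section

namespace Pool.Agent.PP.T8.H53

open Pool.Agent.Helper51_AWC Pool.Agent.Helper79_WRA Pool.Agent.PP Pool.Agent.PP.KF
open Pool.Agent.PP.K9 Pool.Agent.PP.K9.H97 Pool.Agent.PP.H75 Pool.Agent.PP.T3 Pool.Agent.PP.T2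
open Pool.Agent.PP.T8 Pool.Agent.PP.H74
open Polynomial

attribute [local instance] Ideal.Quotient.field

/-- a large power of an element of a finite dimensional algebra in characteristic `ℓ` is a
combination of idempotents -/
theorem pow_comb {F A : Type} [Field F] [IsAlgClosed F] [Ring A] [Algebra F A]
    [FiniteDimensional F A] (ℓ : ℕ) [Fact ℓ.Prime] [CharP F ℓ] (z : A) :
    ∃ (k : ℕ) (S : Finset F) (j : F → A), (∀ β ∈ S, j β * j β = j β) ∧
      z ^ ℓ ^ k = ∑ β ∈ S, β • j β := by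
  classical
  set m := minpoly F z with hm
  have hmm : m.Monic := minpoly.monic (Algebra.IsIntegral.isIntegral z)
  have hprod : m = (m.roots.map fun a => X - C a).prod :=
    (IsAlgClosed.splits m).eq_prod_roots_of_monic hmm
  set R := m.roots.toFinset with hR
  obtain ⟨k, hk⟩ : ∃ k : ℕ, ∀ a, m.roots.count a ≤ ℓ ^ k := by
    refine ⟨m.natDegree, fun a => ?_⟩
    have h1 : m.roots.count a ≤ m.natDegree :=
      (Multiset.count_le_card _ _).trans (card_roots' m)
    exact h1.trans (Nat.lt_pow_self (Fact.out : ℓ.Prime).one_lt).le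
  have hdvd : m ∣ ∏ a ∈ R, (X - C a) ^ ℓ ^ k := by
    have h1 : m = ∏ a ∈ R, (X - C a) ^ m.roots.count a := by
      conv_lhs => rw [hprod, Finset.prod_multiset_map_count]
    conv_lhs => rw [h1]
    exact Finset.prod_dvd_prod_of_dvd _ _ fun a _ => pow_dvd_pow _ (hk a)
  have hexp : ExpChar F ℓ := ExpChar.prime Fact.out
  have hinj : Function.Injective (fun a : F => a ^ ℓ ^ k) := iterateFrobenius_inj F ℓ k
  set S := R.image (fun a : F => a ^ ℓ ^ k) with hS
  set y := z ^ ℓ ^ k with hy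
  have hA : CharP F[X] ℓ := inferInstance
  -- the separable polynomial kills `y`
  have hkill : aeval y (∏ b ∈ S, (X - C b)) = 0 := by
    have h1 : ∏ b ∈ S, (X - C b) = ∏ a ∈ R, (X - C (a ^ ℓ ^ k)) := by
      rw [hS, Finset.prod_image fun a _ b _ h => hinj h]
    have h2 : ∏ a ∈ R, (X - C a) ^ ℓ ^ k = (∏ a ∈ R, (X - C (a ^ ℓ ^ k))).comp (X ^ ℓ ^ k) := by
      rw [Polynomial.prod_comp]
      refine Finset.prod_congr rfl fun a _ => ?_
      rw [sub_comp, X_comp, C_comp, sub_pow_char_pow, C_pow]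
    have h3 : aeval z (∏ a ∈ R, (X - C a) ^ ℓ ^ k) = 0 := by
      obtain ⟨q, hq⟩ := hdvd
      rw [hq, map_mul, minpoly.aeval, zero_mul]
    rw [h1]
    rw [h2, aeval_comp, map_pow, aeval_X] at h3
    exact h3
  have hzero : ∀ p : F[X], (∀ b ∈ S, p.eval b = 0) → aeval y p = 0 := by
    intro p hp
    have h1 : ∏ b ∈ S, (X - C b) ∣ p := by
      refine Finset.prod_dvd_of_coprime (fun a _ b _ h => ?_) fun b hb => ?_
      · exact pairwise_coprime_X_sub_C Function.injective_id h
      · exact dvd_iff_isRoot.2 (hp b hb)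
    obtain ⟨q, hq⟩ := h1
    rw [hq, map_mul, hkill, zero_mul]
  let L : F → F[X] := fun b => Lagrange.basis S id b
  have hL1 : ∀ b ∈ S, (L b).eval b = 1 := fun b hb =>
    Lagrange.eval_basis_self (v := id) (fun _ _ _ _ h => h) hb
  have hL2 : ∀ b ∈ S, ∀ c ∈ S, b ≠ c → (L b).eval c = 0 := fun b _ c hc h =>
    Lagrange.eval_basis_of_ne (v := id) h hc
  refine ⟨k, S, fun b => aeval y (L b), fun b hb => ?_, ?_⟩
  · have h1 := hzero (L b * L b - L b) (by
      intro c hc
      rw [eval_sub, eval_mul]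
      by_cases h : b = c
      · subst h
        rw [hL1 b hb, mul_one, sub_self]
      · rw [hL2 b hb c hc h, mul_zero, sub_self])
    rw [map_sub, map_mul] at h1
    exact sub_eq_zero.1 h1
  · have h1 := hzero (X - ∑ b ∈ S, C b * L b) (by
      intro c hc
      rw [eval_sub, eval_X, eval_finsetSum, Finset.sum_eq_single c]
      · rw [eval_mul, eval_C, hL1 c hc, mul_one, sub_self]
      · intro b hb hbc
        rw [eval_mul, hL2 b hb c hc hbc, mul_zero]
      · intro h
        exact absurd hc h)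
    rw [map_sub, aeval_X, map_sum] at h1
    have h2 : ∀ b ∈ S, aeval y (C b * L b) = b • aeval y (L b) := fun b _ => by
      rw [map_mul, aeval_C, Algebra.smul_def]
    rw [Finset.sum_congr rfl h2] at h1
    exact sub_eq_zero.1 h1

/-- the general form: a class function which commutes with the `ℓ`-power map -/
theorem rk_gen {F : Type} [Field F] [IsAlgClosed F] {ℓ : ℕ} [Fact ℓ.Prime] [CharP F ℓ] {H : Type}
    [Group H] [Fintype H] (f : H → F) (hfc : ∀ a b, f (a * b) = f (b * a))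
    (hfp : ∀ (t : H) (k : ℕ), f (t ^ ℓ ^ k) = f t ^ ℓ ^ k) (x : H → F) (hx : ∑ h, x h * f h ≠ 0) :
    ∃ j : H → F, mulF j j = j ∧ ∑ h, j h * f h ≠ 0 := by
  have hexp : ExpChar F ℓ := ExpChar.prime Fact.out
  have hpow : ∀ k : ℕ, H74.fl f (H74.ma x ^ ℓ ^ k) = (H74.fl f (H74.ma x)) ^ ℓ ^ k := by
    intro k
    have h1 := H74.fl_pow (Fact.out : ℓ.Prime) hfc x 1 k
    have h2 : (MonoidAlgebra.single (1 : H) (1 : F)) = 1 := rfl
    rw [h2, mul_one] at h1
    rw [h1, H74.fl_ma]
    have h3 : (∑ t, x t * f t) ^ ℓ ^ k = ∑ t, (x t * f t) ^ ℓ ^ k := by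
      rw [← iterateFrobenius_def, map_sum]
      rfl
    rw [h3]
    refine Finset.sum_congr rfl fun t _ => ?_
    rw [mul_one, mul_pow, hfp t k]
  have hx' : H74.fl f (H74.ma x) ≠ 0 := by
    rw [H74.fl_ma]
    exact hx
  have hfd : FiniteDimensional F (MonoidAlgebra F H) := inferInstance
  obtain ⟨k, S, j, hj, hsum⟩ := pow_comb (F := F) ℓ (H74.ma x)
  have h1 : H74.fl f (H74.ma x ^ ℓ ^ k) ≠ 0 := by
    rw [hpow]
    exact pow_ne_zero _ hx'
  rw [hsum, map_sum] at h1
  obtain ⟨β, hβ, h2⟩ := Finset.exists_ne_zero_of_sum_ne_zero h1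
  have h3 : ∀ (c : F) (z : MonoidAlgebra F H), H74.fl f (c • z) = c * H74.fl f z := by
    intro c z
    induction z using MonoidAlgebra.induction_linear with
    | zero => rw [smul_zero, map_zero, mul_zero]
    | add a b ha hb => rw [smul_add, map_add, map_add, ha, hb, mul_add]
    | single t d =>
      rw [MonoidAlgebra.smul_single, H74.fl_single, H74.fl_single, smul_eq_mul, mul_assoc]
  rw [h3] at h2
  refine ⟨fun t => (j β).coeff t, ?_, ?_⟩
  · apply H74.ma_injective
    rw [← H74.ma_mul, H74.ma_coeff, hj β hβ]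
  · have h4 := H74.fl_ma f (fun t => (j β).coeff t)
    rw [H74.ma_coeff] at h4
    rw [← h4]
    exact right_ne_zero_of_mul h2

/-- RK1 -/
theorem rk1 : Rk1Stmt := by
  intro ℓ hℓ M hM hlM H _ _ κ hκ x hx
  have hF : GoodF ℓ (FF M) := H50.fld ℓ hℓ.out M hlM
  have hch : CharP (FF M) ℓ := hF.char
  have hcl : IsAlgClosed (FF M) := hF.closed
  have hFH : Fintype H := Fintype.ofFinite H
  rw [finsum_eq_sum_of_fintype] at hx
  obtain ⟨j, hj, hj'⟩ := rk_gen (ℓ := ℓ) (fun h => rr M (κ h)) (fun a b => by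
    have h1 : κ (a * b) = κ (b * a) := by
      rw [← irr_conj hκ (b * a) a]
      congr 1
      group
    change rr M (κ (a * b)) = rr M (κ (b * a))
    rw [h1]) (fun t k => by
    change rr M (κ (t ^ ℓ ^ k)) = rr M (κ t) ^ ℓ ^ k
    rw [rr_of_int (irr_integral hκ _), rr_of_int (irr_integral hκ _)]
    exact H15.vpow ℓ M hlM H κ hκ t k) x hx
  refine ⟨j, hj, ?_⟩
  rw [finsum_eq_sum_of_fintype]
  exact hj'

end Pool.Agent.PP.T8.H53
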